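import Pool.Agent.Lib_helper35.RG.DefsN
import Pool.Agent.Lib_helper17.QR.Defs

/-!
# Multiquadratic extensions, small `S` (MQR, MP_dd9835_nt): definitions
-/

set_option autoImplicit false
set_option linter.unusedSectionVars false

namespace Pool.Agent.MQR

open Pool.Agent.RSK Pool.Agent.RS2 Pool.Agent.RS3 Pool.Agent.SY Pool.Agent.AU Pool.Agent.CR
open Pool.Agent.RG Pool.Agent.QR
open NumberField IsDedekindDomain

/-! ## The space `E` -/

section Base

variable {k : Type} [Field k] [NumberField k]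

theorem ordv_KT {T : Finset (HeightOneSpectrum (𝓞 k))} {x : kˣ} (hx : x ∈ KT T)
    {v : HeightOneSpectrum (𝓞 k)} (hv : v ∈ T) : ordv v (x : k) = 0 := by
  have h1 := hx v hv
  have h2 : v.valuation k (x : k) = 1 := by
    have e : (x : k) = ((x : k) - 1) + 1 := by ring
    rw [e, Valuation.map_add_eq_of_lt_right _ (by rw [map_one]; exact h1), map_one]
  rw [ordv, h2, WithZero.log_one, neg_zero]

/-- the `b ≡ 1 mod T` with even valuation at the places outside `S` -/
def ES (S T : Finset (HeightOneSpectrum (𝓞 k))) : AddSubgroup (Additive kˣ) where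
  carrier := {b | b.toMul ∈ KT T ∧
    ∀ v : HeightOneSpectrum (𝓞 k), v ∉ S → Even (ordv v (b.toMul : k))}
  zero_mem' := ⟨(KT T).one_mem, fun v _ => by
    rw [show ((Additive.toMul (0 : Additive kˣ) : kˣ) : k) = 1 from rfl, ordv_one]
    exact Even.zero⟩
  add_mem' := fun {a b} ha hb => ⟨(KT T).mul_mem ha.1 hb.1, fun v hv => by
    rw [show ((Additive.toMul (a + b) : kˣ) : k) = ((a.toMul * b.toMul : kˣ) : k) from rfl,
      ordv_mul]
    exact (ha.2 v hv).add (hb.2 v hv)⟩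
  neg_mem' := fun {a} ha => ⟨(KT T).inv_mem ha.1, fun v hv => by
    rw [show ((Additive.toMul (-a) : kˣ) : k) = ((a.toMul⁻¹ : kˣ) : k) from rfl, ordv_inv]
    exact (ha.2 v hv).neg⟩

/-- the squares of the elements `≡ 1 mod T` -/
def sqT (T : Finset (HeightOneSpectrum (𝓞 k))) : AddSubgroup (Additive kˣ) where
  carrier := {b | ∃ c : Additive kˣ, c.toMul ∈ KT T ∧ b = 2 • c}
  zero_mem' := ⟨0, (KT T).one_mem, (nsmul_zero 2).symm⟩
  add_mem' := by
    rintro a b ⟨c, hc, rfl⟩ ⟨d, hd, rfl⟩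
    exact ⟨c + d, (KT T).mul_mem hc hd, (nsmul_add c d 2).symm⟩
  neg_mem' := by
    rintro a ⟨c, hc, rfl⟩
    exact ⟨-c, (KT T).inv_mem hc, (neg_nsmul c 2).symm⟩

/-- `sqT T` as a subgroup of `ES S T` -/
def sqE (S T : Finset (HeightOneSpectrum (𝓞 k))) : AddSubgroup (ES S T) :=
  (sqT T).addSubgroupOf (ES S T)

open scoped Classical in
/-- half of the divisor of `b ∈ ES S T` (outside `S`) -/
noncomputable def hf (S T : Finset (HeightOneSpectrum (𝓞 k))) : ES S T →+ Dvs k where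
  toFun b := Finsupp.ofSupportFinite
    (fun v => if v ∈ S then 0 else ordv v (b.1.toMul : k) / 2) (by
      refine Set.Finite.subset (dvx_finite b.1.toMul) fun v hv => ?_
      rw [Function.mem_support] at hv ⊢
      intro h
      refine hv ?_
      have h' : ordv v (b.1.toMul : k) = 0 := h
      split_ifs
      · rfl
      · rw [h']
        rfl)
  map_zero' := by
    ext v
    show (if v ∈ S then (0 : ℤ) else ordv v (1 : k) / 2) = 0
    rw [ordv_one]
    split_ifs <;> rfl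
  map_add' a b := by
    ext v
    show (if v ∈ S then (0 : ℤ) else ordv v ((a.1.toMul * b.1.toMul : kˣ) : k) / 2) =
      (if v ∈ S then (0 : ℤ) else ordv v (a.1.toMul : k) / 2) +
        (if v ∈ S then (0 : ℤ) else ordv v (b.1.toMul : k) / 2)
    by_cases hv : v ∈ S
    · rw [if_pos hv, if_pos hv, if_pos hv, add_zero]
    · rw [if_neg hv, if_neg hv, if_neg hv, ordv_mul]
      obtain ⟨x, hx⟩ := a.2.2 v hv
      obtain ⟨y, hy⟩ := b.2.2 v hv
      rw [hx, hy]
      omega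

theorem hf_two {S T : Finset (HeightOneSpectrum (𝓞 k))} (b : ES S T)
    {v : HeightOneSpectrum (𝓞 k)} (hv : v ∉ S) : 2 * hf S T b v = ordv v (b.1.toMul : k) := by
  classical
  obtain ⟨x, hx⟩ := b.2.2 v hv
  have h : hf S T b v = ordv v (b.1.toMul : k) / 2 := by
    show (if v ∈ S then (0 : ℤ) else ordv v (b.1.toMul : k) / 2) = _
    rw [if_neg hv]
  rw [h, hx]
  omega

theorem hf_S {S T : Finset (HeightOneSpectrum (𝓞 k))} (b : ES S T)
    {v : HeightOneSpectrum (𝓞 k)} (hv : v ∈ S) : hf S T b v = 0 := by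
  classical
  show (if v ∈ S then (0 : ℤ) else ordv v (b.1.toMul : k) / 2) = 0
  rw [if_pos hv]

theorem hf_Dv {S T : Finset (HeightOneSpectrum (𝓞 k))} (b : ES S T) : hf S T b ∈ Dv T := by
  classical
  intro v hv
  show (if v ∈ S then (0 : ℤ) else ordv v (b.1.toMul : k) / 2) = 0
  split_ifs
  · rfl
  · rw [ordv_KT b.2.1 hv]
    rfl

/-- the order of the `(S,T)`-class group modulo `2` -/
noncomputable def a2 (S T : Finset (HeightOneSpectrum (𝓞 k))) : ℕ :=
  (Pr S T ⊔ (Dv T).map (nsmulAddMonoidHom 2)).relIndex (Dv T)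

/-- the homomorphism `Dvs k → ZMod 2` with value `c v` at `v` -/
noncomputable def wt (c : HeightOneSpectrum (𝓞 k) → ZMod 2) : Dvs k →+ ZMod 2 :=
  Finsupp.liftAddHom fun v => (AddMonoidHom.mulRight (c v)).comp (Int.castAddHom (ZMod 2))

theorem wt_single (c : HeightOneSpectrum (𝓞 k) → ZMod 2) (v : HeightOneSpectrum (𝓞 k)) (n : ℤ) :
    wt c (Finsupp.single v n) = (n : ZMod 2) * c v := by
  unfold wt
  rw [Finsupp.liftAddHom_apply_single]
  rfl

theorem wt_apply (c : HeightOneSpectrum (𝓞 k) → ZMod 2) (D : Dvs k) :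
    wt c D = D.sum fun v n => (n : ZMod 2) * c v := rfl

end Base

/-! ## Quadratic extensions -/

section Quad

variable {F K : Type} [Field F] [NumberField F] [Field K] [NumberField K] [Algebra F K]

/-- `y` has norm `b`, and `div y = ½ div b + σ D - D` outside `S`. -/
structure DD (S : Finset (HeightOneSpectrum (𝓞 F))) (σ : K ≃ₐ[F] K) (b : Additive Fˣ)
    (y : Additive Kˣ) (D : Dvs K) : Prop where
  /-- the norm of `y` is `b` -/
  norm : y + eac σ y = inc F K b
  /-- `div y = ½ div b + σ D - D` outside `S` -/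
  div : ∀ W : HeightOneSpectrum (𝓞 K), W.under (𝓞 F) ∉ S → 2 * ordv W (y.toMul : K) =
    ordv (W.under (𝓞 F)) (b.toMul : F) + 2 * (D (pac σ W) - D W)

/-- the subgroup of the divisors which are principal or invariant -/
noncomputable def BT (K : Type) [Field K] [NumberField K] [Algebra F K]
    (S T : Finset (HeightOneSpectrum (𝓞 F))) : AddSubgroup (Dvs K) :=
  Pr (ovr K S) (ovr K T) ⊔ DvP 2 F K T

/-- the elements of `ES S T` which are norms of elements `≡ 1 mod T` of `K` -/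
noncomputable def Zs (S T : Finset (HeightOneSpectrum (𝓞 F))) (σ : K ≃ₐ[F] K) :
    AddSubgroup (ES S T) where
  carrier := {b | ∃ y : Additive Kˣ, y.toMul ∈ KT (ovr K T) ∧ y + eac σ y = inc F K b.1}
  zero_mem' := ⟨0, (KT _).one_mem, by
    rw [map_zero, add_zero]
    exact (map_zero (inc F K)).symm⟩
  add_mem' := by
    rintro a b ⟨y, hy, e⟩ ⟨z, hz, e'⟩
    refine ⟨y + z, (KT _).mul_mem hy hz, ?_⟩
    rw [show ((a + b : ES S T) : Additive Fˣ) = a.1 + b.1 from rfl, map_add, map_add, ← e, ← e']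
    abel
  neg_mem' := by
    rintro a ⟨y, hy, e⟩
    refine ⟨-y, (KT _).inv_mem hy, ?_⟩
    rw [show ((-a : ES S T) : Additive Fˣ) = -a.1 from rfl, map_neg, map_neg, ← e]
    abel

end Quad

/-! ## The group `G` -/

section Gal

variable {F H : Type} [Field F] [NumberField F] [Field H] [NumberField H] [Algebra F H]
  {G : Type} [CommGroup G]

/-- `θ` is trivial on the decomposition groups of the places in `S`. -/
def Sp (ι : G ≃* (H ≃ₐ[F] H)) (S : Finset (HeightOneSpectrum (𝓞 F))) (θ : Ch G) : Prop :=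
  ∀ P : PS S, dgF ι P.pl ≤ kr θ

/-- the group of the characters `θ` with `Sp ι S θ` -/
def C0 (ι : G ≃* (H ≃ₐ[F] H)) (S : Finset (HeightOneSpectrum (𝓞 F))) : AddSubgroup (Ch G) where
  carrier := {θ | Sp ι S θ}
  zero_mem' := fun _ _ _ => rfl
  add_mem' := fun {a b} ha hb P g hg => by
    have h1 : a (Additive.ofMul g) = 0 := ha P hg
    have h2 : b (Additive.ofMul g) = 0 := hb P hg
    show (a + b) (Additive.ofMul g) = 0
    rw [AddMonoidHom.add_apply, h1, h2, add_zero]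
  neg_mem' := fun {a} ha P g hg => by
    have h1 : a (Additive.ofMul g) = 0 := ha P hg
    show (-a) (Additive.ofMul g) = 0
    rw [AddMonoidHom.neg_apply, h1, neg_zero]

/-- `a = α ^ 2` with `g α = (-1) ^ θ(g) α` for all `g ∈ G`. -/
def Km (ι : G ≃* (H ≃ₐ[F] H)) (θ : Ch G) (a : Fˣ) : Prop :=
  ∃ α : H, α ^ 2 = algebraMap F H (a : F) ∧ ∀ g : G, ι g α = ((sg θ g : ℤ) : H) * α

open scoped Classical in
/-- an element `a` with `Km ι θ a` -/
noncomputable def af (ι : G ≃* (H ≃ₐ[F] H)) (θ : Ch G) : Fˣ :=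
  if h : ∃ a : Fˣ, Km ι θ a then h.choose else 1

/-- the symbol `(χ_θ, b)_v` -/
noncomputable def sy (ι : G ≃* (H ≃ₐ[F] H)) (θ : Ch G) (v : Pl F) (b : Additive Fˣ) : ZMod 2 :=
  hs v (af ι θ) b.toMul

/-- the symbol `(χ_θ, y)_W` of an extension `K/F` -/
noncomputable def syK (ι : G ≃* (H ≃ₐ[F] H)) {K : Type} [Field K] [NumberField K] [Algebra F K]
    (θ : Ch G) (W : Pl K) (y : Additive Kˣ) : ZMod 2 :=
  hs W (Units.map (algebraMap F K : F →* K) (af ι θ)) y.toMul

open scoped Classical in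
/-- the homomorphism `v ↦ θ(fr v)` on the divisors outside `S` -/
noncomputable def cdF (fr : HeightOneSpectrum (𝓞 F) → G) (S : Finset (HeightOneSpectrum (𝓞 F)))
    (θ : Ch G) : Dvs F →+ ZMod 2 :=
  wt fun v => if v ∈ S then 0 else θ (Additive.ofMul (fr v))

open scoped Classical in
/-- the composite of `v ↦ θ(fr v)` and the norm from the quadratic extension `K` belonging to `c` -/
noncomputable def cdN (K : Type) [Field K] [NumberField K] [Algebra F K]
    (fr : HeightOneSpectrum (𝓞 F) → G) (S : Finset (HeightOneSpectrum (𝓞 F)))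
    (c θ : Ch G) : Dvs K →+ ZMod 2 :=
  wt fun W => if W.under (𝓞 F) ∈ S ∨ c (Additive.ofMul (fr (W.under (𝓞 F)))) ≠ 0 then 0
    else θ (Additive.ofMul (fr (W.under (𝓞 F))))

/-- the places in `S` other than the `v_i` -/
abbrev Sx {r : ℕ} (w : Fin r → Pl H) (S : Finset (HeightOneSpectrum (𝓞 F))) : Type :=
  {P : PS S // ∀ i, P.pl ≠ dn F (w i)}

variable [Fintype G]

/-- `b x` is the square of an element `≡ 1 mod T` of `H` -/
def Rel (ι : G ≃* (H ≃ₐ[F] H)) {S T : Finset (HeightOneSpectrum (𝓞 F))} (b : ES S T)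
    (x : UM ι S T) : Prop :=
  ∃ z : Additive Hˣ, z.toMul ∈ KT (ovr H T) ∧ inc F H b.1 + Additive.ofMul x.val = 2 • z

theorem Rel.add {ι : G ≃* (H ≃ₐ[F] H)} {S T : Finset (HeightOneSpectrum (𝓞 F))} {b b' : ES S T}
    {x x' : UM ι S T} (h : Rel ι b x) (h' : Rel ι b' x') : Rel ι (b + b') (x + x') := by
  obtain ⟨z, hz, e⟩ := h
  obtain ⟨z', hz', e'⟩ := h'
  refine ⟨z + z', (KT _).mul_mem hz hz', ?_⟩
  rw [nsmul_add, ← e, ← e', UM.val_add, ofMul_mul, show ((b + b' : ES S T) : Additive Fˣ) =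
    b.1 + b'.1 from rfl, map_add]
  abel

theorem Rel.neg {ι : G ≃* (H ≃ₐ[F] H)} {S T : Finset (HeightOneSpectrum (𝓞 F))} {b : ES S T}
    {x : UM ι S T} (h : Rel ι b x) : Rel ι (-b) (-x) := by
  obtain ⟨z, hz, e⟩ := h
  refine ⟨-z, (KT _).inv_mem hz, ?_⟩
  rw [neg_nsmul, ← e, UM.val_neg, ofMul_inv, show ((-b : ES S T) : Additive Fˣ) = -b.1 from rfl,
    map_neg]
  abel

theorem Rel.zero {ι : G ≃* (H ≃ₐ[F] H)} {S T : Finset (HeightOneSpectrum (𝓞 F))} :
    Rel ι (0 : ES S T) (0 : UM ι S T) := by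
  refine ⟨0, (KT _).one_mem, ?_⟩
  rw [nsmul_zero, UM.val_zero, ofMul_one, show ((0 : ES S T) : Additive Fˣ) = 0 from rfl, map_zero,
    add_zero]

/-- the elements of `ES S T` belonging to `Uc ι S T θ` -/
noncomputable def U1 (ι : G ≃* (H ≃ₐ[F] H)) (S T : Finset (HeightOneSpectrum (𝓞 F))) (θ : Ch G) :
    AddSubgroup (ES S T) where
  carrier := {b | ∃ x ∈ Uc ι S T θ, Rel ι b x}
  zero_mem' := ⟨0, (Uc ι S T θ).zero_mem, Rel.zero⟩
  add_mem' := by
    rintro a b ⟨x, hx, h⟩ ⟨y, hy, h'⟩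
    exact ⟨x + y, (Uc ι S T θ).add_mem hx hy, h.add h'⟩
  neg_mem' := by
    rintro a ⟨x, hx, h⟩
    exact ⟨-x, (Uc ι S T θ).neg_mem hx, h.neg⟩

/-- The homomorphisms `φ i θ` belonging to a basis `c` of `C0 ι S` (section 3 of the paper). -/
structure Phi (ι : G ≃* (H ≃ₐ[F] H)) (S T : Finset (HeightOneSpectrum (𝓞 F)))
    (fr : HeightOneSpectrum (𝓞 F) → G) {t : ℕ} (c : Fin t → Ch G)
    (φ : Fin t → Ch G → (ES S T →+ ZMod 2)) : Prop where
  /-- `c i ∈ C0 ι S` -/
  sp : ∀ i, Sp ι S (c i)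
  /-- `c` is independent -/
  ind : ∀ I : Finset (Fin t), ∑ i ∈ I, c i = 0 → I = ∅
  /-- `c` generates `C0 ι S` -/
  span : ∀ θ, Sp ι S θ → ∃ I : Finset (Fin t), θ = ∑ i ∈ I, c i
  /-- `φ i θ` vanishes on the squares -/
  sq : ∀ i θ, ∀ b ∈ sqE S T, φ i θ b = 0
  /-- `φ i θ` is affine in `θ` -/
  aff : ∀ i x y z, φ i (x + y + z) = φ i x + φ i y + φ i z
  /-- the value at `θ = 0` -/
  zero : ∀ i (b : ES S T), φ i 0 b = cdF fr S (c i) (hf S T b)
  /-- the value for norms from the quadratic extension belonging to `θ` -/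
  chi : ∀ i (θ : Ch G), θ ≠ 0 → ∀ σ : Kf ι (kr θ) ≃ₐ[F] Kf ι (kr θ), σ ≠ 1 →
    ∀ (b : ES S T) (y : Additive (Kf ι (kr θ))ˣ) (D : Dvs (Kf ι (kr θ))), DD S σ b.1 y D →
      φ i θ b = cdN (Kf ι (kr θ)) fr S θ (c i) D

/-- the homomorphism `β_θ`, with the components `(χ_θ, b)_P` for the places `P ≠ P₀` in `S` which are
not among the `v_i`, and `φ i θ b` -/
noncomputable def bt (ι : G ≃* (H ≃ₐ[F] H)) {S T : Finset (HeightOneSpectrum (𝓞 F))} {r : ℕ}
    {w : Fin r → Pl H} (P₀ : Sx w S) {t : ℕ} (φ : Fin t → Ch G → (ES S T →+ ZMod 2))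
    (hs : ∀ (θ : Ch G) (v : Pl F) (b b' : Additive Fˣ), sy ι θ v (b + b') = sy ι θ v b + sy ι θ v b')
    (θ : Ch G) : ES S T →+ ({P : Sx w S // P ≠ P₀} ⊕ Fin t → ZMod 2) where
  toFun b := Sum.elim (fun P => sy ι θ P.1.1.pl b.1) (fun i => φ i θ b)
  map_zero' := by
    have h : ∀ v, sy ι θ v (0 : Additive Fˣ) = 0 := fun v => by
      have h1 := hs θ v 0 0
      rw [add_zero] at h1
      exact (left_eq_add.1 h1)
    funext q
    rcases q with P | i
    · exact h _
    · exact map_zero (φ i θ)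
  map_add' b b' := by
    funext q
    rcases q with P | i
    · exact hs θ _ _ _
    · exact map_add (φ i θ) b b'

end Gal

end Pool.Agent.MQR
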