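import Pool.Agent.Lib_helper35.RG.Defs

/-!
# Extensions of prime exponent: dyadic places and real places
-/

set_option autoImplicit false
set_option linter.unusedSectionVars false

namespace Pool.Agent.MQR

open Pool.Agent.RSK Pool.Agent.CR
open NumberField IsDedekindDomain

variable {F H : Type} [Field F] [NumberField F] [Field H] [NumberField H] [Algebra F H]
  {G : Type} [CommGroup G] [Fintype G]

open scoped Classical in
/-- the product of the numbers `2 ^ [F_v : ℚ_2] = (N v) ^ ord_v(2)` over the places `v ∣ 2` in `S`
whose decomposition group is not cyclic (for `v ∤ 2` the factor is `1`) -/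
noncomputable def dyD (ι : G ≃* (H ≃ₐ[F] H)) (S : Finset (HeightOneSpectrum (𝓞 F))) : ℕ :=
  ∏ v ∈ S, if IsCyclic (dgF ι (Sum.inr v)) then 1 else nv v ^ (ordv v (2 : F)).toNat

/-- the number of the real places of `F` which become complex in `H` -/
noncomputable def rcD (ι : G ≃* (H ≃ₐ[F] H)) : ℕ :=
  Nat.card {w : InfinitePlace F // dgF ι (Sum.inl w) ≠ ⊥}

end Pool.Agent.MQR
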